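import Pool.Agent.helper90.TP.Defs

/-! Module CH (project TP, MP_78ccb7_gt): the scale. -/

set_option autoImplicit false

namespace Pool.Agent.helper90.TP

/-- `P` is a Laver tree above `s` -/
def CH_Laver (P : Set (List ℕ)) (s : List ℕ) : Prop :=
  s ∈ P ∧ ∀ u ∈ P, ∀ m : ℕ, ∃ j, m ≤ j ∧ u ++ [j] ∈ P

theorem CH_branch (P : Set (List ℕ)) (s : List ℕ) (h : CH_Laver P s)
    (c : ℕ → List ℕ → ℕ) :
    ∃ z : ℕ → ℕ, pre z s.length = s ∧ (∀ n, s.length ≤ n → pre z n ∈ P) ∧
      ∀ i, ∀ᶠ k in Filter.atTop, c i (pre z k) ≤ z k := by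
  classical
  obtain ⟨hs, hP⟩ := h
  choose! J hJ1 hJ2 using hP
  -- the bound at `u`
  let M : List ℕ → ℕ := fun u => (Finset.range (u.length + 1)).sup (fun i => c i u)
  let nx : List ℕ → List ℕ := fun u => u ++ [J u (M u)]
  let U : ℕ → List ℕ := fun n => nx^[n] s
  have hU0 : U 0 = s := rfl
  have hUs : ∀ n, U (n + 1) = U n ++ [J (U n) (M (U n))] := by
    intro n
    simp only [U, Function.iterate_succ_apply']
    rfl
  have hUP : ∀ n, U n ∈ P := by
    intro n
    induction n with
    | zero => exact hs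
    | succ n ih =>
      rw [hUs]
      exact hJ2 _ ih _
  have hUl : ∀ n, (U n).length = s.length + n := by
    intro n
    induction n with
    | zero => simp [hU0]
    | succ n ih =>
      rw [hUs, List.length_append, ih]
      simp; omega
  have hpref : ∀ m n, m ≤ n → U m <+: U n := by
    intro m n hmn
    induction n, hmn using Nat.le_induction with
    | base => exact List.prefix_rfl
    | succ n _ ih =>
      rw [hUs]
      exact ih.trans (List.prefix_append _ _)
  let z : ℕ → ℕ := fun k => (U (k + 1)).getD k 0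
  have hz : ∀ n i (hi : i < (U n).length), z i = (U n)[i] := by
    intro n i hi
    have hi1 : i < (U (i + 1)).length := by rw [hUl]; omega
    have e1 : z i = (U (i + 1))[i] := by
      simp only [z]
      exact List.getD_eq_getElem _ _ hi1
    rw [e1]
    rcases le_total n (i + 1) with h | h
    · exact ((hpref _ _ h).getElem hi).symm
    · exact (hpref _ _ h).getElem hi1
  have hpre : ∀ n, pre z (s.length + n) = U n := by
    intro n
    have := (pre_eq_iff z (U n)).2 (fun i hi => hz n i hi)
    rwa [hUl] at this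
  refine ⟨z, ?_, ?_, ?_⟩
  · have := hpre 0
    simpa [hU0] using this
  · intro n hn
    obtain ⟨k, rfl⟩ := Nat.exists_eq_add_of_le hn
    rw [hpre]
    exact hUP k
  · intro i
    rw [Filter.eventually_atTop]
    refine ⟨s.length + i, ?_⟩
    intro k hk
    obtain ⟨n, rfl⟩ := Nat.exists_eq_add_of_le (le_trans (Nat.le_add_right s.length i) hk)
    rw [hpre]
    have e : z (s.length + n) = J (U n) (M (U n)) := by
      have hi : s.length + n < (U (n + 1)).length := by rw [hUl]; omega
      rw [hz (n + 1) _ hi]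
      simp only [hUs]
      rw [List.getElem_append_right (by rw [hUl])]
      simp [hUl]
    rw [e]
    refine le_trans ?_ (hJ1 (U n) (hUP n) (M (U n)))
    apply Finset.le_sup (f := fun i => c i (U n))
    rw [Finset.mem_range, hUl]
    omega

theorem CH_step (P : Set (List ℕ)) (s : List ℕ) (C : Set (List ℕ → ℕ)) (hC : C.Countable) :
    ∃ z : ℕ → ℕ, (CH_Laver P s → pre z s.length = s ∧ ∀ n, s.length ≤ n → pre z n ∈ P) ∧
      ∀ c ∈ C, ∀ᶠ k in Filter.atTop, c (pre z k) ≤ z k := by
  obtain ⟨c, hc⟩ := (hC.insert (fun _ => 0)).exists_eq_range ⟨_, Set.mem_insert _ _⟩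
  by_cases h : CH_Laver P s
  · obtain ⟨z, h1, h2, h3⟩ := CH_branch P s h c
    refine ⟨z, fun _ => ⟨h1, h2⟩, ?_⟩
    intro d hd
    have : d ∈ Set.range c := by
      rw [← hc]; exact Set.mem_insert_of_mem _ hd
    obtain ⟨i, rfl⟩ := this
    exact h3 i
  · obtain ⟨z, h1, h2, h3⟩ := CH_branch Set.univ []
      ⟨Set.mem_univ _, fun u _ m => ⟨m, le_rfl, Set.mem_univ _⟩⟩ c
    refine ⟨z, fun h' => absurd h' h, ?_⟩
    intro d hd
    have : d ∈ Set.range c := by
      rw [← hc]; exact Set.mem_insert_of_mem _ hd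
    obtain ⟨i, rfl⟩ := this
    exact h3 i

/-- the data to be handled -/
abbrev CH_Data : Type := Set (List ℕ) × List ℕ × (List ℕ → ℕ)

theorem CH_card : Cardinal.mk CH_Data = Cardinal.continuum := by
  have h1 : Cardinal.mk (Set (List ℕ)) = Cardinal.continuum := by
    rw [Cardinal.mk_set, Cardinal.mk_eq_aleph0, Cardinal.two_power_aleph0]
  have h2 : Cardinal.mk (List ℕ → ℕ) = Cardinal.continuum := by
    rw [Cardinal.mk_pi]
    simp
  rw [Cardinal.mk_prod, Cardinal.mk_prod, h1, h2, Cardinal.mk_eq_aleph0 (List ℕ)]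
  simp

theorem CH_down (hCH : Cardinal.aleph 1 = Cardinal.continuum) :
    Cardinal.aleph.{0} 1 = Cardinal.continuum.{0} := by
  apply Cardinal.lift_injective
  rw [Cardinal.lift_aleph, Cardinal.lift_continuum]
  simpa using hCH

theorem exists_scale (hCH : Cardinal.aleph 1 = Cardinal.continuum) :
    ∃ (I : Type) (_ : LinearOrder I), WellFoundedLT I ∧
      (∀ a : I, (Set.Iio a).Countable) ∧ ¬ (Set.univ : Set I).Countable ∧
      ∃ x : I → ℕ → ℕ, IsScale x := by
  classical
  let I : Type := (Cardinal.aleph 1).ord.ToType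
  have hcard : Cardinal.mk I = Cardinal.aleph 1 := by
    simp [I]
  have hwf : WellFoundedLT I := inferInstance
  have hI : ∀ a : I, (Set.Iio a).Countable := by
    intro a
    have h := Cardinal.mk_Iio_toType_ord_lt a
    rw [← Cardinal.le_aleph0_iff_set_countable]
    have h1 : Cardinal.aleph 1 = Order.succ (Cardinal.aleph0) := by
      rw [← Cardinal.succ_aleph0]
    exact Order.lt_succ_iff.1 (h.trans_eq h1)
  have hU : ¬ (Set.univ : Set I).Countable := by
    intro h
    have h2 := Cardinal.le_aleph0_iff_set_countable.2 h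
    rw [Cardinal.mk_univ, hcard] at h2
    exact absurd h2 (not_le.2 Cardinal.aleph0_lt_aleph_one)
  have hCH0 : Cardinal.aleph.{0} 1 = Cardinal.continuum.{0} := CH_down hCH
  have heq : Cardinal.mk I = Cardinal.mk CH_Data := by rw [hcard, CH_card, hCH0]
  obtain ⟨f⟩ := Cardinal.eq.1 heq
  -- the recursion
  let C : (a : I) → ((b : I) → b < a → ℕ → ℕ) → Set (List ℕ → ℕ) := fun a prev =>
    (fun b => (f b).2.2) '' (Set.Iic a) ∪
      Set.range (fun b : Set.Iio a => fun u : List ℕ => prev b.1 b.2 u.length + 1)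
  have hC : ∀ a prev, (C a prev).Countable := by
    intro a prev
    have h1 : (Set.Iic a).Countable := by
      rw [← Set.Iio_insert]
      exact (hI a).insert a
    have : Countable (Set.Iio a) := (hI a).to_subtype
    exact (h1.image _).union (Set.countable_range _)
  let step : (a : I) → ((b : I) → b < a → ℕ → ℕ) → (ℕ → ℕ) := fun a prev =>
    Classical.choose (CH_step (f a).1 (f a).2.1 (C a prev) (hC a prev))
  have hstep : ∀ a prev, (CH_Laver (f a).1 (f a).2.1 →
      pre (step a prev) (f a).2.1.length = (f a).2.1 ∧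
        ∀ n, (f a).2.1.length ≤ n → pre (step a prev) n ∈ (f a).1) ∧
      ∀ c ∈ C a prev, ∀ᶠ k in Filter.atTop, c (pre (step a prev) k) ≤ (step a prev) k :=
    fun a prev => Classical.choose_spec (CH_step (f a).1 (f a).2.1 (C a prev) (hC a prev))
  let x : I → ℕ → ℕ := hwf.wf.fix step
  have hx : ∀ a, x a = step a (fun b _ => x b) := fun a => hwf.wf.fix_eq step a
  refine ⟨I, inferInstance, hwf, hI, hU, x, ?_, ?_, ?_⟩
  · intro P s hs hP
    obtain ⟨a, ha⟩ := f.surjective (P, s, fun _ => 0)
    refine ⟨a, ?_⟩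
    have h := (hstep a (fun b _ => x b)).1 (by rw [ha]; exact ⟨hs, hP⟩)
    rw [← hx a, ha] at h
    exact h
  · intro c
    obtain ⟨b, hb⟩ := f.surjective (Set.univ, [], c)
    apply (hI b).mono
    intro a ha
    simp only [Set.mem_ofPred_eq] at ha
    by_contra hba
    rw [Set.mem_Iio, not_lt] at hba
    apply ha
    have h := (hstep a (fun b _ => x b)).2 c (Or.inl ⟨b, hba, by simp only [hb]⟩)
    rw [← hx a] at h
    exact h
  · intro a b hab
    have h := (hstep b (fun b _ => x b)).2 (fun u => x a u.length + 1)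
      (Or.inr ⟨⟨a, hab⟩, rfl⟩)
    rw [← hx b] at h
    filter_upwards [h] with k hk
    rw [length_pre] at hk
    omega

end Pool.Agent.helper90.TP
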