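import Pool.Agent.helper90.TP.Defs

/-! Module TO (project TP, MP_78ccb7_gt): the topology. -/

set_option autoImplicit false

namespace Pool.Agent.helper90.TP

variable {I : Type} [LinearOrder I]

theorem TO_bdd (hI : ∀ a : I, (Set.Iio a).Countable) (hU : ¬ (Set.univ : Set I).Countable)
    {S : Set I} (hS : S.Countable) : ∃ γ, ∀ a ∈ S, a < γ := by
  by_contra hcon
  push Not at hcon
  apply hU
  have h1 : (Set.univ : Set I) ⊆ ⋃ a ∈ S, (insert a (Set.Iio a)) := by
    intro γ _
    obtain ⟨a, ha, hγ⟩ := hcon γ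
    simp only [Set.mem_iUnion]
    refine ⟨a, ha, ?_⟩
    rcases hγ.lt_or_eq with h | h
    · exact Or.inr h
    · exact Or.inl h
  exact (hS.biUnion fun a _ => (hI a).insert a).mono h1

section
variable {x : I → ℕ → ℕ} {F : ℕ → I → Finset I}

theorem isOpen_W [Nonempty I] (hI : ∀ a : I, (Set.Iio a).Countable)
    (hU : ¬ (Set.univ : Set I).Countable) (hx : IsScale x) (hF : IsTower F) (n : ℕ) (a : I) :
    IsOpen (W x F n a) := by
  rw [isOpen_iff]
  constructor
  · intro b hb
    rw [pl_mem_W] at hb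
    rcases lt_trichotomy b a with hba | rfl | hab
    · exfalso
      obtain ⟨k, hk⟩ := (hx.incr b a hba).exists
      exact absurd (hb.2 k) (by omega)
    · exact ⟨n, le_rfl⟩
    · obtain ⟨n1, h1⟩ := hF.exh b a hab
      refine ⟨max n n1, ?_⟩
      rintro (c | y) hp
      · refine ⟨fun i hi => ?_, fun i => (hb.2 i).trans (hp.2 i)⟩
        rw [hp.1 i (lt_of_lt_of_le hi (le_max_left _ _))]
        exact hb.1 i hi
      · refine ⟨(le_max_left _ _).trans hp.1, fun i hi hin => ?_,
          fun i hi => (hb.2 i).trans (hp.2.2.1 i hi), ?_⟩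
        · rw [hp.2.1 i hi (lt_of_lt_of_le hin (le_max_left _ _))]
          exact hb.1 i hin
        · exact y.cl b hp.2.2.2 (hF.mono _ _ b ((le_max_right n n1).trans hp.1) h1)
  · intro y hy
    rw [pr_mem_W] at hy
    obtain ⟨γ, hγ⟩ := TO_bdd hI hU (Set.countable_singleton a)
    refine ⟨γ, ?_⟩
    rintro (c | y') hp
    · exact hp.elim
    · obtain ⟨t', G', cl'⟩ := y'
      obtain ⟨ht, hG⟩ := hp
      simp only at ht hG
      subst ht
      exact ⟨hy.1, hy.2.1, hy.2.2.1, (hG a (hγ a rfl)).2 hy.2.2.2⟩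

theorem isOpen_N [Nonempty I] (γ : I) (y : YPt F) : IsOpen (N x F γ y) := by
  rw [isOpen_iff]
  constructor
  · intro a ha
    exact ha.elim
  · intro y' hy'
    refine ⟨γ, ?_⟩
    rintro (c | z) hz
    · exact hz.elim
    · exact ⟨hz.1.trans hy'.1, fun a ha => (hz.2 a ha).trans (hy'.2 a ha)⟩

theorem isClosed_W [Nonempty I] (hI : ∀ a : I, (Set.Iio a).Countable)
    (hU : ¬ (Set.univ : Set I).Countable) (n : ℕ) (a : I) :
    IsClosed (W x F n a) := by
  rw [← isOpen_compl_iff, isOpen_iff]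
  constructor
  · intro b hb
    rw [Set.mem_compl_iff, pl_mem_W, not_and_or] at hb
    push Not at hb
    rcases hb with ⟨i, hi, hne⟩ | ⟨i, hi⟩
    · refine ⟨max n (i + 1), ?_⟩
      rintro (c | y) hp hq
      · apply hne
        rw [← hp.1 i (lt_of_lt_of_le (Nat.lt_succ_self i) (le_max_right _ _))]
        exact hq.1 i hi
      · have hil : i < y.t.length :=
          lt_of_lt_of_le (lt_of_lt_of_le (Nat.lt_succ_self i) (le_max_right n _)) hp.1
        apply hne
        rw [← hp.2.1 i hil (lt_of_lt_of_le (Nat.lt_succ_self i) (le_max_right _ _))]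
        exact hq.2.1 i hil hi
    · refine ⟨i + 1, ?_⟩
      rintro (c | y) hp hq
      · have h1 := hp.1 i (Nat.lt_succ_self i)
        have h2 := hq.2 i
        omega
      · have hil : i < y.t.length := lt_of_lt_of_le (Nat.lt_succ_self i) hp.1
        have h1 := hp.2.1 i hil (Nat.lt_succ_self i)
        have h2 := hq.2.2.1 i hil
        omega
  · intro y hy
    obtain ⟨γ, hγ⟩ := TO_bdd hI hU (Set.countable_singleton a)
    refine ⟨γ, ?_⟩
    rintro (c | y') hp hq
    · exact hp.elim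
    · apply hy
      obtain ⟨t', G', cl'⟩ := y'
      obtain ⟨ht, hG⟩ := hp
      simp only at ht hG
      subst ht
      exact ⟨hq.1, hq.2.1, hq.2.2.1, (hG a (hγ a rfl)).1 hq.2.2.2⟩

theorem isClosed_N [Nonempty I] (hI : ∀ a : I, (Set.Iio a).Countable)
    (hU : ¬ (Set.univ : Set I).Countable) (γ : I) (y : YPt F) :
    IsClosed (N x F γ y) := by
  rw [← isOpen_compl_iff, isOpen_iff]
  constructor
  · intro b _
    refine ⟨y.t.length + 1, ?_⟩
    rintro (c | z) hp hq
    · exact hq.elim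
    · have h1 := hp.1
      have h2 : z.t = y.t := hq.1
      rw [h2] at h1
      omega
  · intro y' hy'
    refine ⟨γ, ?_⟩
    rintro (c | z) hp hq
    · exact hp.elim
    · apply hy'
      exact ⟨hp.1.symm.trans hq.1, fun a ha => (hp.2 a ha).symm.trans (hq.2 a ha)⟩

/-- every neighbourhood of a point contains a clopen neighbourhood -/
theorem TO_exists_clopen [Nonempty I] (hI : ∀ a : I, (Set.Iio a).Countable)
    (hU : ¬ (Set.univ : Set I).Countable) (hx : IsScale x) (hF : IsTower F)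
    (p : Sp x F) (U : Set (Sp x F)) (hp : p ∈ U) (hUo : IsOpen U) :
    ∃ V : Set (Sp x F), IsClopen V ∧ p ∈ V ∧ V ⊆ U := by
  rw [isOpen_iff] at hUo
  rcases p with a | y
  · obtain ⟨n, hn⟩ := hUo.1 a hp
    exact ⟨W x F n a, ⟨isClosed_W hI hU n a, isOpen_W hI hU hx hF n a⟩, self_mem_W n a, hn⟩
  · obtain ⟨γ, hγ⟩ := hUo.2 y hp
    exact ⟨N x F γ y, ⟨isClosed_N hI hU γ y, isOpen_N γ y⟩, self_mem_N γ y, hγ⟩

/-- the points are separated by open sets (`T₀`) -/
theorem TO_sep [Nonempty I] (hI : ∀ a : I, (Set.Iio a).Countable)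
    (hU : ¬ (Set.univ : Set I).Countable) (hx : IsScale x) (hF : IsTower F)
    (p q : Sp x F) (hpq : p ≠ q) :
    ∃ V : Set (Sp x F), IsOpen V ∧ ((p ∈ V ∧ q ∉ V) ∨ (q ∈ V ∧ p ∉ V)) := by
  rcases p with a | y <;> rcases q with b | z
  · have hab : a ≠ b := fun h => hpq (by rw [h])
    rcases lt_or_gt_of_ne hab with h | h
    · obtain ⟨k, hk⟩ := (hx.incr a b h).exists
      refine ⟨W x F (k + 1) a, isOpen_W hI hU hx hF _ a, Or.inl ⟨self_mem_W _ a, ?_⟩⟩
      intro hmem
      have := hmem.1 k (Nat.lt_succ_self k)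
      omega
    · obtain ⟨k, hk⟩ := (hx.incr b a h).exists
      refine ⟨W x F (k + 1) a, isOpen_W hI hU hx hF _ a, Or.inl ⟨self_mem_W _ a, ?_⟩⟩
      intro hmem
      have := hmem.1 k (Nat.lt_succ_self k)
      omega
  · exact ⟨N x F (Classical.arbitrary I) z, isOpen_N _ z,
      Or.inr ⟨self_mem_N _ z, fun h => h.elim⟩⟩
  · exact ⟨N x F (Classical.arbitrary I) y, isOpen_N _ y,
      Or.inl ⟨self_mem_N _ y, fun h => h.elim⟩⟩
  · obtain ⟨γ, hγ⟩ := TO_bdd hI hU
      (S := {a | a ∈ y.G ∨ a ∈ z.G})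
      ((y.G ∪ z.G).countable_toSet.mono (by
        intro a ha
        simpa using ha))
    refine ⟨N x F γ y, isOpen_N γ y, Or.inl ⟨self_mem_N _ y, ?_⟩⟩
    intro hmem
    obtain ⟨ht, hG⟩ := hmem
    apply hpq
    obtain ⟨t, G, cl⟩ := y
    obtain ⟨t', G', cl'⟩ := z
    simp only at ht hG hγ
    subst ht
    have hGG : G' = G := by
      ext a
      by_cases ha : a < γ
      · exact hG a ha
      · constructor
        · intro h
          exact absurd (hγ a (Or.inr h)) ha
        · intro h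
          exact absurd (hγ a (Or.inl h)) ha
    subst hGG
    rfl

theorem t3 [Nonempty I] (hI : ∀ a : I, (Set.Iio a).Countable)
    (hU : ¬ (Set.univ : Set I).Countable) (hx : IsScale x) (hF : IsTower F) :
    T3Space (Sp x F) := by
  haveI : RegularSpace (Sp x F) := by
    apply RegularSpace.of_exists_mem_nhds_isClosed_subset
    intro p s hs
    obtain ⟨U, hUs, hUo, hpU⟩ := mem_nhds_iff.1 hs
    obtain ⟨V, hV, hpV, hVU⟩ := TO_exists_clopen hI hU hx hF p U hpU hUo
    exact ⟨V, hV.2.mem_nhds hpV, hV.1, hVU.trans hUs⟩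
  haveI : T0Space (Sp x F) := by
    rw [t0Space_iff_inseparable]
    intro p q hpq
    by_contra hne
    obtain ⟨V, hVo, h | h⟩ := TO_sep hI hU hx hF p q hne
    · exact h.2 ((hpq.mem_open_iff hVo).1 h.1)
    · exact h.2 ((hpq.mem_open_iff hVo).2 h.1)
  exact {}

theorem clopen_basis [Nonempty I] (hI : ∀ a : I, (Set.Iio a).Countable)
    (hU : ¬ (Set.univ : Set I).Countable) (hx : IsScale x) (hF : IsTower F) :
    TopologicalSpace.IsTopologicalBasis {s : Set (Sp x F) | IsClopen s} := by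
  apply TopologicalSpace.isTopologicalBasis_of_isOpen_of_nhds
  · intro u hu
    exact hu.2
  · intro p U hp hUo
    obtain ⟨V, hV, hpV, hVU⟩ := TO_exists_clopen hI hU hx hF p U hp hUo
    exact ⟨V, hV, hpV, hVU⟩

end

end Pool.Agent.helper90.TP
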